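import Pool.Agent.L0h82.GT.Stm

/-!
# Board GT (helper82), module TOT (by helper85)
-/

set_option autoImplicit false

namespace Pool.Agent.L0h85.GT

open Pool.Agent.L0h82.GT

universe u

def P (y : Fin 5) (i : Fin 3) (k : Fin 4) : Fin 5 :=
  y.succAbove ((![![0, 1, 2, 3], ![0, 2, 1, 3], ![0, 3, 1, 2]] : Fin 3 → Fin 4 → Fin 4) i k)

/-- the double transposition at `y` number `i` -/
def M (y : Fin 5) (i : Fin 3) (x : Fin 5) : Fin 5 :=
  if x = P y i 0 then P y i 1 else if x = P y i 1 then P y i 0 else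
    if x = P y i 2 then P y i 3 else if x = P y i 3 then P y i 2 else x

/-- a `4`-cycle whose square is `M y i` -/
def Q (y : Fin 5) (i : Fin 3) (x : Fin 5) : Fin 5 :=
  if x = P y i 0 then P y i 2 else if x = P y i 2 then P y i 1 else
    if x = P y i 1 then P y i 3 else if x = P y i 3 then P y i 0 else x

lemma kM : ∀ (y : Fin 5) (i : Fin 3), M y i y = y ∧ ∀ a, M y i (M y i a) = a := by decide +kernel

lemma kQ : ∀ (y : Fin 5) (i : Fin 3) (a : Fin 5), Q y i (Q y i a) = M y i a := by decide +kernel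

lemma kP : ∀ (y : Fin 5) (i : Fin 3), [y, P y i 0, P y i 1, P y i 2, P y i 3].Nodup ∧
    (∀ x : Fin 5, x = y ∨ x = P y i 0 ∨ x = P y i 1 ∨ x = P y i 2 ∨ x = P y i 3) ∧
    Q y i y = y ∧ Q y i (P y i 0) = P y i 2 ∧ Q y i (P y i 2) = P y i 1 ∧
    Q y i (P y i 1) = P y i 3 ∧ Q y i (P y i 3) = P y i 0 ∧
    (∃ j, j ≠ i ∧ M y j (P y i 0) = P y i 2 ∧ M y j (P y i 1) = P y i 3) ∧
    (∃ j, j ≠ i ∧ M y j (P y i 0) = P y i 3 ∧ M y j (P y i 1) = P y i 2) := by decide +kernel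

lemma kT : ∀ y a b c d : Fin 5, [y, a, b, c, d].Nodup →
    (∀ x : Fin 5, x = y ∨ x = a ∨ x = b ∨ x = c ∨ x = d) ∧
    ∃ i, M y i a = b ∧ M y i c = d := by decide +kernel

lemma kU : ∀ (y : Fin 5) (i j : Fin 3) (a : Fin 5), a ≠ y → M y i a = M y j a → i = j := by
  decide +kernel

lemma k3 : ∀ (y : Fin 5) (i j k : Fin 3) (a : Fin 5), i ≠ j → k ≠ i → k ≠ j →
    M y i (M y j a) = M y k a := by decide +kernel

lemma k4 : ∀ (y d : Fin 5) (i j : Fin 3) (a : Fin 5), y ≠ d → a ≠ y → a ≠ d → M y i a = M d j a →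
    ∃ c, [c, y, d, a, M y i a].Nodup ∧ M y i d = c ∧ M y i c = d ∧ M d j c = y ∧ M d j y = c := by
  decide +kernel

lemma k5 : ∀ (y d : Fin 5) (j : Fin 3), y ≠ d → ∃ k a, a ≠ y ∧ a ≠ d ∧ M y k a = M d j a := by
  decide +kernel

lemma k6 : ∀ s0 s1 s2 s3 s4 : Fin 3,
    (∀ y d a : Fin 5, y ≠ d → a ≠ y → a ≠ d →
      M y ((![s0, s1, s2, s3, s4] : Fin 5 → Fin 3) y) a ≠
      M d ((![s0, s1, s2, s3, s4] : Fin 5 → Fin 3) d) a) →
    ∃ n : Fin 6, ∀ y a : Fin 5,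
      (M y ((![s0, s1, s2, s3, s4] : Fin 5 → Fin 3) y) a : ℕ) = mt n y a := by
  decide +kernel

lemma k7 : ∀ (i : Fin 3) (n : Fin 6), (∀ a : Fin 5, (M 0 i a : ℕ) = mt n (0 : Fin 5) a) →
    ∃ e ∈ HF, Pool.Agent.L0h82.GT.cond n e.1 = true ∧ ∀ k : Fin 5, dg e.1 k = Q 0 i k := by decide +kernel

section

variable {X : Type u} (G : Subgroup (Equiv.Perm X)) (w : Fin 5 → X)

def Ind (f : Fin 5 → Fin 5) : Prop := ∃ g ∈ G, ∀ i, g (w i) = w (f i)

variable {G w}

lemma Ind.comp {f f' : Fin 5 → Fin 5} (h : Ind G w f) (h' : Ind G w f') :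
    Ind G w fun x => f (f' x) := by
  obtain ⟨g, hg, h1⟩ := h
  obtain ⟨g', hg', h1'⟩ := h'
  refine ⟨g * g', G.mul_mem hg hg', fun i => ?_⟩
  rw [Equiv.Perm.mul_apply, h1', h1]

lemma ind_M {y a b c d : Fin 5} {i : Fin 3} (hn : [y, a, b, c, d].Nodup) (hab : M y i a = b)
    (hcd : M y i c = d) : R G (w y) (w a) (w b) (w c) (w d) ↔ Ind G w (M y i) := by
  obtain ⟨hall, -⟩ := kT y a b c d hn
  obtain ⟨k1, k2⟩ := kM y i
  have hba : M y i b = a := by rw [← hab, k2]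
  have hdc : M y i d = c := by rw [← hcd, k2]
  constructor
  · rintro ⟨g, hg, h1, h2, h3, h4, h5⟩
    refine ⟨g, hg, fun x => ?_⟩
    rcases hall x with rfl | rfl | rfl | rfl | rfl
    · rw [k1, h1]
    · rw [hab, h2]
    · rw [hba, h3]
    · rw [hcd, h4]
    · rw [hdc, h5]
  · rintro ⟨g, hg, h⟩
    refine ⟨g, hg, ?_, ?_, ?_, ?_, ?_⟩
    · rw [h, k1]
    · rw [h, hab]
    · rw [h, hba]
    · rw [h, hcd]
    · rw [h, hdc]

/-- F1 -/
lemma F1 (hG : Gen G) (hw : Function.Injective w) (y : Fin 5) (i : Fin 3) :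
    (∃ j, j ≠ i ∧ Ind G w (M y j)) ∨ Ind G w (Q y i) := by
  classical
  obtain ⟨hn, hall, q0, q1, q2, q3, q4, ⟨j, hj, hj1, hj2⟩, ⟨k, hk, hk1, hk2⟩⟩ := kP y i
  generalize P y i 0 = a at *
  generalize P y i 1 = b at *
  generalize P y i 2 = c at *
  generalize P y i 3 = d at *
  simp only [List.nodup_cons, List.mem_cons, List.not_mem_nil, or_false, not_or,
    List.nodup_nil, and_true, not_false_eq_true] at hn
  obtain ⟨⟨ya, yb, yc, yd⟩, ⟨ab, ac, ad⟩, ⟨bc, bd⟩, cd⟩ := hn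
  have iw : ∀ {x z : Fin 5}, x ≠ z → w x ≠ w z := fun h h' => h (hw h')
  obtain ⟨g, hg, h1, h2⟩ := hG {w y, w a, w b} {w y, w c, w d}
    (Finset.card_eq_three.2 ⟨_, _, _, iw ya, iw yb, iw ab, rfl⟩)
    (Finset.card_eq_three.2 ⟨_, _, _, iw yc, iw yd, iw cd, rfl⟩)
  simp only [Finset.mem_insert, Finset.mem_singleton, forall_eq_or_imp, forall_eq] at h1 h2
  obtain ⟨y1, a1, b1⟩ := h1
  obtain ⟨y2, c1, d1⟩ := h2
  have hy : g (w y) = w y := by
    rcases y1 with h | h | h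
    · exact h
    · rcases y2 with h' | h' | h'
      · exact h'
      · exact absurd (hw (h.symm.trans h')) (Ne.symm ac)
      · exact absurd (hw (h.symm.trans h')) (Ne.symm bc)
    · rcases y2 with h' | h' | h'
      · exact h'
      · exact absurd (hw (h.symm.trans h')) (Ne.symm ad)
      · exact absurd (hw (h.symm.trans h')) (Ne.symm bd)
  have ig : ∀ {x z : Fin 5} {v : X}, g (w x) = v → g (w z) = v → x = z := fun h h' =>
    hw (g.injective (h.trans h'.symm))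
  have ha : g (w a) = w c ∨ g (w a) = w d := a1.resolve_left fun h => ya (ig hy h)
  have hb : g (w b) = w c ∨ g (w b) = w d := b1.resolve_left fun h => yb (ig hy h)
  have hc : g (w c) = w a ∨ g (w c) = w b := c1.resolve_left fun h => yc (ig hy h)
  have hd : g (w d) = w a ∨ g (w d) = w b := d1.resolve_left fun h => yd (ig hy h)
  have n1 : [y, a, c, b, d].Nodup := by
    simp only [List.nodup_cons, List.mem_cons, List.not_mem_nil, or_false, not_or,
      List.nodup_nil, and_true, not_false_eq_true]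
    exact ⟨⟨ya, yc, yb, yd⟩, ⟨ac, ab, ad⟩, ⟨fun h => bc h.symm, cd⟩, bd⟩
  have n2 : [y, a, d, b, c].Nodup := by
    simp only [List.nodup_cons, List.mem_cons, List.not_mem_nil, or_false, not_or,
      List.nodup_nil, and_true, not_false_eq_true]
    exact ⟨⟨ya, yd, yb, yc⟩, ⟨ad, ab, ac⟩, ⟨fun h => bd h.symm, fun h => cd h.symm⟩, bc⟩
  rcases ha with ha | ha
  · have hb' : g (w b) = w d := hb.resolve_left fun h => ab (ig ha h)
    rcases hc with hc | hc
    · have hd' : g (w d) = w b := hd.resolve_left fun h => cd (ig hc h)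
      exact Or.inl ⟨j, hj, (ind_M n1 hj1 hj2).1 ⟨g, hg, hy, ha, hc, hb', hd'⟩⟩
    · have hd' : g (w d) = w a := hd.resolve_right fun h => cd (ig hc h)
      right
      refine ⟨g, hg, fun x => ?_⟩
      rcases hall x with rfl | rfl | rfl | rfl | rfl
      · rw [q0, hy]
      · rw [q1, ha]
      · rw [q3, hb']
      · rw [q2, hc]
      · rw [q4, hd']
  · have hb' : g (w b) = w c := hb.resolve_right fun h => ab (ig ha h)
    rcases hc with hc | hc
    · have hd' : g (w d) = w b := hd.resolve_left fun h => cd (ig hc h)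
      right
      refine ⟨g⁻¹, G.inv_mem hg, fun x => ?_⟩
      rw [Equiv.Perm.inv_eq_iff_eq]
      rcases hall x with rfl | rfl | rfl | rfl | rfl
      · rw [q0, hy]
      · rw [q1, hc]
      · rw [q3, hd']
      · rw [q2, hb']
      · rw [q4, ha]
    · have hd' : g (w d) = w a := hd.resolve_right fun h => cd (ig hc h)
      exact Or.inl ⟨k, hk, (ind_M n2 hk1 hk2).1 ⟨g, hg, hy, ha, hd', hb', hc⟩⟩

lemma F2 {y : Fin 5} {i : Fin 3} (h : Ind G w (Q y i)) : Ind G w (M y i) := by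
  have := h.comp h
  have e : (fun x => Q y i (Q y i x)) = M y i := funext (kQ y i)
  rwa [e] at this

lemma F3 {y : Fin 5} {i j : Fin 3} (k : Fin 3) (hij : i ≠ j) (h : Ind G w (M y i))
    (h' : Ind G w (M y j)) : Ind G w (M y k) := by
  by_cases h1 : k = i
  · rwa [h1]
  by_cases h2 : k = j
  · rwa [h2]
  have := h.comp h'
  have e : (fun x => M y i (M y j x)) = M y k := funext fun a => k3 y i j k a hij h1 h2
  rwa [e] at this

lemma F4 (hC : ∀ a b c d e : Fin 5, [a, b, c, d, e].Nodup → ¬ C3 G (w a) (w b) (w c) (w d) (w e))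
    {y d : Fin 5} {i j : Fin 3} (h : Ind G w (M y i)) (h' : Ind G w (M d j)) (hyd : y ≠ d)
    {a : Fin 5} (ha : a ≠ y) (ha' : a ≠ d) : M y i a ≠ M d j a := by
  intro heq
  obtain ⟨c, hn, h1, h2, h3, h4⟩ := k4 y d i j a hyd ha ha' heq
  obtain ⟨g, hg, e⟩ := h
  obtain ⟨g', hg', e'⟩ := h'
  refine hC c y d a (M y i a) hn ⟨g * g', G.mul_mem hg hg', ?_, ?_, ?_, ?_, ?_⟩
  · rw [Equiv.Perm.mul_apply, e', e, h3, (kM y i).1]
  · rw [Equiv.Perm.mul_apply, e', e, h4, h2]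
  · rw [Equiv.Perm.mul_apply, e', e, (kM d j).1, h1]
  · rw [Equiv.Perm.mul_apply, e', e, ← heq, (kM y i).2]
  · rw [Equiv.Perm.mul_apply, e', e]
    conv_lhs => rw [heq]
    rw [(kM d j).2]

lemma uniq (hG : Gen G) (hw : Function.Injective w)
    (hC : ∀ a b c d e : Fin 5, [a, b, c, d, e].Nodup → ¬ C3 G (w a) (w b) (w c) (w d) (w e))
    (y : Fin 5) : ∃ i, ∀ j, Ind G w (M y j) ↔ j = i := by
  have ex : ∀ y, ∃ i, Ind G w (M y i) := by
    intro y
    rcases F1 hG hw y 0 with ⟨j, -, hj⟩ | h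
    · exact ⟨j, hj⟩
    · exact ⟨0, F2 h⟩
  obtain ⟨i, hi⟩ := ex y
  refine ⟨i, fun j => ⟨fun hj => ?_, fun hj => by rwa [hj]⟩⟩
  by_contra hne
  obtain ⟨d, hd⟩ : ∃ d : Fin 5, y ≠ d := (by decide : ∀ y : Fin 5, ∃ d : Fin 5, y ≠ d) y
  obtain ⟨j', hj'⟩ := ex d
  obtain ⟨k, a, h1, h2, h3⟩ := k5 y d j' hd
  exact F4 hC (F3 k hne hj hi) hj' hd h1 h2 h3

end

theorem t_TOT : S_TOT.{u} := by
  intro X G w hG hw hC
  set v : Fin 5 → X := fun i => w i with hv
  have hv' : Function.Injective v := by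
    intro i j h
    exact Fin.ext (hw i.2 j.2 h)
  have hC' : ∀ a b c d e : Fin 5, [a, b, c, d, e].Nodup →
      ¬ C3 G (v a) (v b) (v c) (v d) (v e) := by
    intro a b c d e hn
    refine hC a b c d e a.2 b.2 c.2 d.2 e.2 ?_
    have := hn.map Fin.val_injective
    simpa using this
  choose s hs using uniq hG hv' hC'
  have hs1 : ∀ y, Ind G v (M y (s y)) := fun y => (hs y _).2 rfl
  have es : (![s 0, s 1, s 2, s 3, s 4] : Fin 5 → Fin 3) = s := by
    ext i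
    fin_cases i <;> rfl
  obtain ⟨n, hn⟩ := k6 (s 0) (s 1) (s 2) (s 3) (s 4) (by
    rw [es]
    intro y d a h1 h2 h3
    exact F4 hC' (hs1 y) (hs1 d) h1 h2 h3)
  rw [es] at hn
  refine ⟨n, ⟨n.2, ?_⟩, ?_⟩
  · intro y a b c d hy ha hb hc hd hnd
    lift y to Fin 5 using hy
    lift a to Fin 5 using ha
    lift b to Fin 5 using hb
    lift c to Fin 5 using hc
    lift d to Fin 5 using hd
    have hnd' : [y, a, b, c, d].Nodup := by
      refine List.Nodup.of_map Fin.val ?_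
      simpa using hnd
    obtain ⟨-, i, hi1, hi2⟩ := kT y a b c d hnd'
    rw [← hn, ← hn]
    have e1 := ind_M (G := G) (w := v) hnd' hi1 hi2
    rw [hs y i] at e1
    refine e1.trans ⟨?_, ?_⟩
    · rintro rfl
      exact ⟨congrArg _ hi1, congrArg _ hi2⟩
    · rintro ⟨h1, -⟩
      have h3 : M y (s y) a = b := Fin.ext h1
      refine kU y i (s y) a ?_ (hi1.trans h3.symm)
      rintro rfl
      simp at hnd'
  · obtain ⟨e, he, hc, hq⟩ := k7 (s 0) n (fun a => hn 0 a)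
    refine ⟨e, he, hc, ?_⟩
    rcases F1 hG hv' 0 (s 0) with ⟨j, hj, hj'⟩ | h
    · exact absurd ((hs 0 j).1 hj') hj
    · obtain ⟨g, hg, h⟩ := h
      refine ⟨g, hg, fun i hi => ?_⟩
      have h1 := h ⟨i, hi⟩
      have h2 := hq ⟨i, hi⟩
      rw [show dg e.1 i = ((Q 0 (s 0) ⟨i, hi⟩ : Fin 5) : ℕ) from h2]
      exact h1

end Pool.Agent.L0h85.GT
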